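import Mathlib
import Pool.Agent.Helper66.TF.EVre
import Pool.Agent.Helper9.TG.TreeDefs

/-!
# The critical value of a tree as a sum of volumes
-/

set_option autoImplicit false

namespace Pool.Agent.Helper9.TG

open Complex Finset
open Pool.Agent.Helper9.TF

lemma geo80_wt {R D : ℕ} : ∀ {t : PTree}, t.Big R D → R ≤ t.wt.natAbs
  | .leaf _, h => h
  | .graft p _, h => by
    have h1 : R ≤ p.wt.natAbs := geo80_wt (t := p) h.1
    exact h1

lemma geo80_deg {R D : ℕ} : ∀ {t : PTree}, t.Big R D → t.deg ≤ D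
  | .leaf _, _ => Nat.zero_le _
  | .graft _ _, h => h.2.2

lemma geo80_small {D : ℕ} {c : PTree} (hc : c.Big (1000 * (D + 1)) D) {z : ℂ}
    (hz : ‖z - 1 / (c.wt : ℂ)‖ ≤ 2 * (1 + c.deg) / (c.wt : ℝ) ^ 2) : ‖z‖ ≤ 1 / 400 := by
  have h1 := geo80_wt hc
  have h2 := geo80_deg hc
  set a : ℤ := c.wt with ha
  have h3 : (1000 : ℝ) * (D + 1) ≤ |(a : ℝ)| := by
    have h4 : ((1000 * (D + 1) : ℕ) : ℤ) ≤ |a| := by
      rw [Int.abs_eq_natAbs]; exact_mod_cast h1
    have h5 : (((1000 * (D + 1) : ℕ) : ℤ) : ℝ) ≤ ((|a| : ℤ) : ℝ) := Int.cast_le.mpr h4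
    push_cast at h5
    exact h5
  have hD : (0 : ℝ) ≤ D := Nat.cast_nonneg D
  have hd : (c.deg : ℝ) ≤ D := by exact_mod_cast h2
  have ha0 : 0 < |(a : ℝ)| := by linarith [mul_nonneg (by norm_num : (0:ℝ) ≤ 1000) hD]
  have h6 : ‖(1 : ℂ) / (a : ℂ)‖ ≤ 1 / 1000 := by
    rw [norm_div, norm_one, Complex.norm_intCast]
    apply one_div_le_one_div_of_le (by norm_num)
    linarith
  have h7 : 2 * (1 + (c.deg : ℝ)) / (a : ℝ) ^ 2 ≤ 2 / 1000000 := by
    rw [← sq_abs, div_le_div_iff₀ (by positivity) (by norm_num)]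
    nlinarith
  calc ‖z‖ = ‖(z - 1 / (a : ℂ)) + 1 / (a : ℂ)‖ := by rw [sub_add_cancel]
    _ ≤ ‖z - 1 / (a : ℂ)‖ + ‖(1 : ℂ) / (a : ℂ)‖ := norm_add_le _ _
    _ ≤ 2 / 1000000 + 1 / 1000 := add_le_add (hz.trans h7) h6
    _ ≤ 1 / 400 := by norm_num

lemma geo80_im {u : ℂ} (h0 : 0 < u.re) (h1 : u.re < 1 / 2) :
    0 < (-Complex.exp (-(2 * Real.pi * I * u))).im := by
  have hpi := Real.pi_pos
  rw [Complex.neg_im, Complex.exp_im]
  have e2 : (-(2 * Real.pi * I * u)).im = -(2 * Real.pi * u.re) := by simp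
  rw [e2, Real.sin_neg]
  have : 0 < Real.sin (2 * Real.pi * u.re) := by
    apply Real.sin_pos_of_pos_of_lt_pi
    · positivity
    · nlinarith
  have h3 := Real.exp_pos (-(2 * Real.pi * I * u)).re
  nlinarith [mul_pos h3 this]

lemma geo80_im' {u : ℂ} (h0 : 0 < u.re) (h1 : u.re < 1 / 2) :
    0 < (Complex.exp (2 * Real.pi * I * u)).im := by
  have hpi := Real.pi_pos
  rw [Complex.exp_im]
  have e2 : (2 * Real.pi * I * u).im = 2 * Real.pi * u.re := by simp
  rw [e2]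
  have : 0 < Real.sin (2 * Real.pi * u.re) := by
    apply Real.sin_pos_of_pos_of_lt_pi
    · positivity
    · nlinarith
  exact mul_pos (Real.exp_pos _) this

lemma geo80_shp {y t : ℂ} (hy : ‖y‖ ≤ 1 / 400) (ht : ‖t - 1 / 4‖ ≤ 1 / 200) : Shp y t := by
  have hyr := abs_le.1 ((Complex.abs_re_le_norm y).trans hy)
  have htr := abs_le.1 ((Complex.abs_re_le_norm (t - 1 / 4)).trans ht)
  have e4 : (t - 1 / 4).re = t.re - 1 / 4 := by simp
  rw [e4] at htr
  refine ⟨geo80_im ?_ ?_, geo80_im ?_ ?_, geo80_im' ?_ ?_⟩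
  · rw [Complex.add_re]; linarith [htr.1, hyr.1]
  · rw [Complex.add_re]; linarith [htr.2, hyr.2]
  · rw [Complex.sub_re]; linarith [htr.1, hyr.2]
  · rw [Complex.sub_re]; linarith [htr.2, hyr.1]
  · linarith [htr.1]
  · linarith [htr.2]

theorem tcrit_geo {D : ℕ} {s : ℤ} (hs : s = 1 ∨ s = -1) {t : PTree} {y σ E : ℂ}
    (h : TCrit s t y σ E) (ht : t.Big (1000 * (D + 1)) D) (hy : ‖y‖ ≤ 1 / 400) :
    ∃ V : ℝ, Geo s t y σ V ∧ E.re = V / (2 * Real.pi) - y.im * σ.im := by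
  clear hs
  induction h with
  | leaf s a y => exact ⟨0, Geo.leaf s a y, by simp⟩
  | @graft s p c y σ E z τ F t hp hc hz ht' site kern ihp ihc =>
    obtain ⟨htp, htc, _⟩ := ht
    have hz4 := geo80_small htc hz
    obtain ⟨V, hV, hE⟩ := ihp htp hy
    obtain ⟨W, hW, hF⟩ := ihc htc hz4
    refine ⟨V + W + GG y t + GG z t,
      Geo.graft hV hW (geo80_shp hy ht') (geo80_shp hz4 ht') hz ht' site kern, ?_⟩
    have hk := congrArg Complex.im kern
    rw [Complex.add_im, Complex.zero_im] at hk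
    have hs2 := congrArg Complex.im site
    rw [Complex.add_im, Complex.add_im, Complex.zero_im] at hs2
    have e1 : ((s : ℤ) : ℂ) = (((s : ℤ) : ℝ) : ℂ) := by push_cast; rfl
    have e0 : ((c.wt : ℤ) : ℂ) = (((c.wt : ℤ) : ℝ) : ℂ) := by push_cast; rfl
    have e2 : (-(s : ℂ) * (2 * Real.pi * I * (c.wt * z - 1))).im =
        -((s : ℝ) * (2 * Real.pi * (c.wt * z.re - 1))) := by
      rw [e1, e0, neg_mul, Complex.neg_im, Complex.im_ofReal_mul]
      simp
    have e3 : ((s : ℂ) * (Real.pi * I * c.wt * z ^ 2 - 2 * Real.pi * I * z)).re =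
        -(z.im * ((s : ℝ) * (2 * Real.pi * (c.wt * z.re - 1)))) := by
      rw [e1, e0, Complex.re_ofReal_mul, pow_two z]
      simp
      ring
    rw [e2] at hs2
    have g1 := gam_re (lt_of_le_of_lt hy (by norm_num)) ht'
    have g2 := gam_re (lt_of_le_of_lt hz4 (by norm_num)) ht'
    rw [Complex.add_re, Complex.add_re, Complex.sub_re, Complex.add_re, e3, hE, hF, g1, g2,
      Complex.add_im]
    have hpi : Real.pi ≠ 0 := Real.pi_ne_zero
    have hk2 : (gamt z t).im = -(gamt y t).im := by linarith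
    have hs3 : (s : ℝ) * (2 * Real.pi * (c.wt * z.re - 1)) = τ.im + (gamy z t).im := by linarith
    rw [hk2, hs3]
    field_simp
    ring

end Pool.Agent.Helper9.TG
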